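import Pool.Agent.NE.Stmts

/-!
# NE, module DVA: every path diverges (ALPHA, BETA)
-/

set_option autoImplicit false

open Finset Filter Topology

noncomputable section

namespace Pool.Agent.NE.H87

theorem dva (hnnb : NnbStmt) (hvec : VecStmt) (hysp : YspStmt) (hcmp : CmpStmt) : DvaStmt := by
  intro X Z _ _ _ _ Ψ N p s σ θ L y C M δ Y htree hvals hlim hδ hfar i hpath hcau
  obtain ⟨-, hnnT, -, -, -, -, -⟩ := hnnb N htree.two
  rw [Metric.cauchySeq_iff'] at hcau
  obtain ⟨n0, hn0⟩ := hcau (δ / 16) (by positivity)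
  -- the time n
  set n := n0 + 1 with hn
  have hn1 : 1 ≤ n := by omega
  have hclose : ∀ n', n ≤ n' → ‖Y n' (i n') - Y n (i n)‖ ≤ δ / 8 := by
    intro n' hn'
    have h1 := hn0 n' (by omega)
    have h2 := hn0 n (by omega)
    rw [← dist_eq_norm]
    have h3 : dist (Y n' (i n')) (Y n (i n)) ≤ dist (Y n' (i n')) (Y n0 (i n0)) +
        dist (Y n (i n)) (Y n0 (i n0)) := dist_triangle_right _ _ _
    linarith
  have hin : i n < n := (hpath n hn1).1
  have hl := hlim n (i n) hin
  rw [Metric.tendsto_atTop] at hl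
  obtain ⟨T0, hT0⟩ := hl (δ / 4) (by positivity)
  set T := max T0 n with hT
  have hTT0 := hT0 T (le_max_left _ _)
  rw [dist_eq_norm] at hTT0
  have hnT : n ≤ nn N T := by
    have h1 := hnnT T
    have h2 : n ≤ T := le_max_right _ _
    omega
  have hnnT1 : 1 ≤ nn N T := le_trans hn1 hnT
  set k := i (nn N T) with hk
  have hkT : k < nn N T := (hpath (nn N T) hnnT1).1
  set e : ℕ → ℝ := fun j => if j = i n then 1 else 0 with he
  set g : ℕ → ℝ := fun j => if j = k then 1 else 0 with hg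
  obtain ⟨hv1, hv2⟩ := hvec N p s σ θ htree Z L
  have hJe : J N L T (sp N σ θ n T e) = S N σ θ L n T (i n) := by
    rw [hv1 n T e hn1 hnT]
    simp only [he, ite_smul, one_smul, zero_smul]
    rw [Finset.sum_ite_eq' (range n) (i n)]
    simp [hin]
  have hYe : ∑ j ∈ range (nn N T), sp N σ θ n T e j • Y (nn N T) j = Y n (i n) := by
    rw [← hysp X Z Ψ N p s σ θ L Y htree hlim n T e hn1 hnT]
    simp only [he, ite_smul, one_smul, zero_smul]
    rw [Finset.sum_ite_eq' (range n) (i n)]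
    simp [hin]
  have hgs : ∀ (W : Type) [AddCommGroup W] [Module ℝ W] (f : ℕ → W),
      ∑ j ∈ range (nn N T), (g j - sp N σ θ n T e j) • f j =
        f k - ∑ j ∈ range (nn N T), sp N σ θ n T e j • f j := by
    intro W _ _ f
    simp only [sub_smul, Finset.sum_sub_distrib, hg, ite_smul, one_smul, zero_smul]
    rw [Finset.sum_ite_eq' (range (nn N T)) k]
    simp [hkT]
  have hc := (hcmp X Z Ψ N p s σ θ L y C M Y htree hvals hlim T
    (fun j => g j - sp N σ θ n T e j)).1
  have hJ : J N L T (fun j => g j - sp N σ θ n T e j) = L T k - S N σ θ L n T (i n) := by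
    rw [← hJe]
    exact hgs Z (L T)
  have hYY : ∑ j ∈ range (nn N T), (fun j => g j - sp N σ θ n T e j) j • Y (nn N T) j =
      Y (nn N T) k - Y n (i n) := by
    rw [← hYe]
    exact hgs X (Y (nn N T))
  rw [hJ, hYY] at hc
  have hc2 := hclose (nn N T) hnT
  have hf := hfar T k hkT (Y n (i n))
  have h3 : ‖L T k - Ψ (Y n (i n))‖ ≤ ‖L T k - S N σ θ L n T (i n)‖ +
      ‖S N σ θ L n T (i n) - Ψ (Y n (i n))‖ := by
    have := norm_add_le (L T k - S N σ θ L n T (i n)) (S N σ θ L n T (i n) - Ψ (Y n (i n)))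
    rwa [sub_add_sub_cancel] at this
  have h4 : ‖Y (nn N T) k - Y n (i n)‖ ≤ δ / 8 := hc2
  linarith

end Pool.Agent.NE.H87
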